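import Pool.Agent.Helper76.PC.Stmts

/-!
Module ECON: the contraction of a configuration embeds into the contraction of the graph.
-/

namespace Pool.Agent.Helper76.PC

open Finset

/-- the modified record -/
def econ_mod (rv ra rb r : Vx) : Vx :=
  if r.id = ra.id then
    ⟨r.id, r.sd, ra.lo + rb.lo - 2, ra.hi + rb.hi - 2, remv rv.id ra.nb ++ remv rv.id rb.nb⟩
  else ⟨r.id, r.sd, r.lo, r.hi, repl rb.id ra.id r.nb⟩

theorem econ_id (rv ra rb r : Vx) : (econ_mod rv ra rb r).id = r.id := by
  unfold econ_mod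
  split_ifs <;> rfl

theorem econ_sd (rv ra rb r : Vx) : (econ_mod rv ra rb r).sd = r.sd := by
  unfold econ_mod
  split_ifs <;> rfl

theorem econ_mem (rv ra rb : Vx) (K : Cfg) (r' : Vx) :
    r' ∈ contrC rv ra rb K ↔ ∃ r ∈ K, r.id ≠ rv.id ∧ r.id ≠ rb.id ∧ r' = econ_mod rv ra rb r := by
  induction K with
  | nil => simp [contrC]
  | cons r K ih =>
    unfold contrC
    by_cases h1 : r.id = rv.id
    · have : Nat.beq r.id rv.id = true := by rw [h1]; exact Nat.beq_refl _
      simp only [this, Bool.true_or, cond_true]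
      rw [ih]
      constructor
      · rintro ⟨q, hq, h⟩
        exact ⟨q, List.mem_cons_of_mem _ hq, h⟩
      · rintro ⟨q, hq, h⟩
        rcases List.mem_cons.1 hq with rfl | hq
        · exact absurd h1 h.1
        · exact ⟨q, hq, h⟩
    · have e1 : Nat.beq r.id rv.id = false := by
        rcases hb : Nat.beq r.id rv.id with _ | _
        · rfl
        · exact absurd (Nat.eq_of_beq_eq_true hb) h1
      by_cases h2 : r.id = rb.id
      · have : Nat.beq r.id rb.id = true := by rw [h2]; exact Nat.beq_refl _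
        simp only [this, Bool.or_true, cond_true]
        rw [ih]
        constructor
        · rintro ⟨q, hq, h⟩
          exact ⟨q, List.mem_cons_of_mem _ hq, h⟩
        · rintro ⟨q, hq, h⟩
          rcases List.mem_cons.1 hq with rfl | hq
          · exact absurd h2 h.2.1
          · exact ⟨q, hq, h⟩
      · have e2 : Nat.beq r.id rb.id = false := by
          rcases hb : Nat.beq r.id rb.id with _ | _
          · rfl
          · exact absurd (Nat.eq_of_beq_eq_true hb) h2
        have e3 : (bif Nat.beq r.id ra.id then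
            (⟨r.id, r.sd, ra.lo + rb.lo - 2, ra.hi + rb.hi - 2,
              remv rv.id ra.nb ++ remv rv.id rb.nb⟩ : Vx)
           else ⟨r.id, r.sd, r.lo, r.hi, repl rb.id ra.id r.nb⟩) = econ_mod rv ra rb r := by
          unfold econ_mod
          by_cases h3 : r.id = ra.id
          · have : Nat.beq r.id ra.id = true := by rw [h3]; exact Nat.beq_refl _
            rw [if_pos h3, this, cond_true]
          · have : Nat.beq r.id ra.id = false := by
              rcases hb : Nat.beq r.id ra.id with _ | _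
              · rfl
              · exact absurd (Nat.eq_of_beq_eq_true hb) h3
            rw [if_neg h3, this, cond_false]
        simp only [e1, e2, Bool.or_false, cond_false]
        rw [e3, List.mem_cons, ih]
        constructor
        · rintro (h | ⟨q, hq, h⟩)
          · exact ⟨r, List.mem_cons_self, h1, h2, h⟩
          · exact ⟨q, List.mem_cons_of_mem _ hq, h⟩
        · rintro ⟨q, hq, h⟩
          rcases List.mem_cons.1 hq with rfl | hq
          · exact Or.inl h.2.2
          · exact Or.inr ⟨q, hq, h⟩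

theorem econ_repl (b a : ℕ) (l : List ℕ) : repl b a l = l.map (fun y => if y = b then a else y) := by
  induction l with
  | nil => rfl
  | cons y l ih =>
    unfold repl
    rw [ih, List.map_cons]
    by_cases h : y = b
    · have : Nat.beq y b = true := by rw [h]; exact Nat.beq_refl _
      rw [if_pos h, this, cond_true]
    · have : Nat.beq y b = false := by
        rcases hb : Nat.beq y b with _ | _
        · rfl
        · exact absurd (Nat.eq_of_beq_eq_true hb) h
      rw [if_neg h, this, cond_false]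

theorem st_ECON (h1 : ST_LST) (_h2 : ST_FULL) : ST_ECON := by
  obtain ⟨-, -, hremv, hremvnd, -, -, -, -, -, -, -, -⟩ := h1
  intro G H φ f K E rv hrv ra hra rb hrb hN hab hhex hH
  obtain ⟨hHV, hHN⟩ := hH
  have hav : φ ra.id ∈ G.N (φ rv.id) := by rw [hN]; simp
  have hbv : φ rb.id ∈ G.N (φ rv.id) := by rw [hN]; simp
  have hva : φ rv.id ∈ G.N (φ ra.id) := G.symm _ _ hav
  have hvb : φ rv.id ∈ G.N (φ rb.id) := G.symm _ _ hbv
  have hne_va : φ rv.id ≠ φ ra.id := by
    intro h
    have := G.bip _ _ hav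
    rw [h] at this
    exact this rfl
  have hne_vb : φ rv.id ≠ φ rb.id := by
    intro h
    have := G.bip _ _ hbv
    rw [h] at this
    exact this rfl
  have hsab : side (φ ra.id) = side (φ rb.id) := by
    have e1 := G.bip _ _ hav
    have e2 := G.bip _ _ hbv
    revert e1 e2
    cases side (φ rv.id) <;> cases side (φ ra.id) <;> cases side (φ rb.id) <;> simp
  have ida : rv.id ≠ ra.id := fun h => hne_va (by rw [h])
  have idb : rv.id ≠ rb.id := fun h => hne_vb (by rw [h])
  have idab : ra.id ≠ rb.id := fun h => hab (by rw [h])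
  -- common neighbours of a and b
  have hcom : ∀ y, y ∈ G.N (φ ra.id) → y ∈ G.N (φ rb.id) → y = φ rv.id := by
    intro y hy1 hy2
    exact G.c4 _ _ hab _ _ hy1 hy2 hva hvb
  -- no vertex is adjacent to a and b other than v
  have hcom2 : ∀ x, φ ra.id ∈ G.N x → φ rb.id ∈ G.N x → x = φ rv.id := by
    intro x hx1 hx2
    exact hcom x (G.symm _ _ hx1) (G.symm _ _ hx2)
  have hinter : G.N (φ ra.id) ∩ G.N (φ rb.id) = {φ rv.id} := by
    ext y
    simp only [mem_inter, mem_singleton]
    constructor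
    · rintro ⟨h3, h4⟩
      exact hcom y h3 h4
    · rintro rfl
      exact ⟨hva, hvb⟩
  have hcardab : ((G.N (φ ra.id) ∪ G.N (φ rb.id)).erase (φ rv.id)).card =
      (G.N (φ ra.id)).card + (G.N (φ rb.id)).card - 2 := by
    rw [card_erase_of_mem (mem_union_left _ hva)]
    have := card_union_add_card_inter (G.N (φ ra.id)) (G.N (φ rb.id))
    rw [hinter, card_singleton] at this
    omega
  have hHa : H.N (φ ra.id) = (G.N (φ ra.id) ∪ G.N (φ rb.id)).erase (φ rv.id) := by
    rw [hHN]
    unfold contrN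
    rw [if_neg (by
      rintro (h | h)
      · exact hne_va h.symm
      · exact hab h), if_pos rfl]
  have hHx : ∀ x, x ≠ φ rv.id → x ≠ φ rb.id → x ≠ φ ra.id → H.N x =
      if φ rb.id ∈ G.N x then insert (φ ra.id) ((G.N x).erase (φ rb.id)) else G.N x := by
    intro x hx1 hx2 hx3
    rw [hHN]
    unfold contrN
    rw [if_neg (by
      rintro (h | h)
      · exact hx1 h
      · exact hx2 h), if_neg hx3]
  have hcardx : ∀ x, x ≠ φ rv.id → x ≠ φ rb.id → x ≠ φ ra.id → (H.N x).card = (G.N x).card := by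
    intro x hx1 hx2 hx3
    rw [hHx x hx1 hx2 hx3]
    split_ifs with h
    · have hna : φ ra.id ∉ (G.N x).erase (φ rb.id) := by
        intro h'
        exact hx1 (hcom2 x (mem_of_mem_erase h') h)
      rw [card_insert_of_notMem hna, card_erase_of_mem h]
      have := card_pos.2 ⟨_, h⟩
      omega
    · rfl
  -- facts on the records
  have key : ∀ r ∈ K, r.id ≠ rv.id → r.id ≠ rb.id → r.id ≠ ra.id →
      φ r.id ≠ φ rv.id ∧ φ r.id ≠ φ rb.id ∧ φ r.id ≠ φ ra.id ∧ (∀ y ∈ r.nb, y ≠ rv.id) ∧
      ¬ (ra.id ∈ r.nb ∧ rb.id ∈ r.nb) := by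
    intro r hr e1 e2 e3
    have f1 : φ r.id ≠ φ rv.id := fun h => e1 (E.inj r hr rv hrv h)
    have f2 : φ r.id ≠ φ rb.id := fun h => e2 (E.inj r hr rb hrb h)
    have f3 : φ r.id ≠ φ ra.id := fun h => e3 (E.inj r hr ra hra h)
    refine ⟨f1, f2, f3, ?_, ?_⟩
    · rintro y hy rfl
      have h4 := G.symm _ _ (E.adj r hr _ hy)
      rw [hN] at h4
      simp only [mem_insert, mem_singleton] at h4
      rcases h4 with h4 | h4
      · exact f3 h4
      · exact f2 h4
    · rintro ⟨h4, h5⟩
      exact f1 (hcom2 _ (E.adj r hr _ h4) (E.adj r hr _ h5))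
  have phine : ∀ r ∈ K, ∀ y ∈ r.nb, y ≠ rv.id → φ y ≠ φ rv.id := by
    intro r hr y hy hy1 h
    obtain ⟨q, hq, rfl⟩ := E.cl r hr y hy
    exact hy1 (E.inj q hq rv hrv h)
  have phineb : ∀ r ∈ K, ∀ y ∈ r.nb, y ≠ rb.id → φ y ≠ φ rb.id := by
    intro r hr y hy hy1 h
    obtain ⟨q, hq, rfl⟩ := E.cl r hr y hy
    exact hy1 (E.inj q hq rb hrb h)
  refine ⟨?_, ?_, ?_, ?_, ?_, ?_, ?_, ?_⟩
  · -- memV
    intro r' hr'
    obtain ⟨r, hr, e1, e2, rfl⟩ := (econ_mem rv ra rb K r').1 hr'
    rw [econ_id, hHV]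
    refine mem_erase.2 ⟨fun h => e2 (E.inj r hr rb hrb h), mem_erase.2
      ⟨fun h => e1 (E.inj r hr rv hrv h), E.memV r hr⟩⟩
  · -- sd
    intro r' hr'
    obtain ⟨r, hr, e1, e2, rfl⟩ := (econ_mem rv ra rb K r').1 hr'
    rw [econ_id, econ_sd]
    exact E.sd r hr
  · -- lo
    intro r' hr'
    obtain ⟨r, hr, e1, e2, rfl⟩ := (econ_mem rv ra rb K r').1 hr'
    rw [econ_id]
    unfold econ_mod
    by_cases e3 : r.id = ra.id
    · rw [if_pos e3, e3, hHa, hcardab]
      dsimp only
      have := E.lo ra hra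
      have := E.lo rb hrb
      omega
    · rw [if_neg e3]
      obtain ⟨f1, f2, f3, -, -⟩ := key r hr e1 e2 e3
      rw [hcardx _ f1 f2 f3]
      exact E.lo r hr
  · -- hi
    intro r' hr'
    obtain ⟨r, hr, e1, e2, rfl⟩ := (econ_mem rv ra rb K r').1 hr'
    rw [econ_id]
    unfold econ_mod
    by_cases e3 : r.id = ra.id
    · rw [if_pos e3, e3, hHa, hcardab]
      dsimp only
      have := E.hi ra hra
      have := E.hi rb hrb
      omega
    · rw [if_neg e3]
      obtain ⟨f1, f2, f3, -, -⟩ := key r hr e1 e2 e3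
      rw [hcardx _ f1 f2 f3]
      exact E.hi r hr
  · -- nd
    intro r' hr'
    obtain ⟨r, hr, e1, e2, rfl⟩ := (econ_mem rv ra rb K r').1 hr'
    unfold econ_mod
    by_cases e3 : r.id = ra.id
    · rw [if_pos e3]
      dsimp only
      refine List.nodup_append.2 ⟨hremvnd _ _ (E.nd ra hra), hremvnd _ _ (E.nd rb hrb), ?_⟩
      rintro y hy z hz rfl
      obtain ⟨hy1, hy2⟩ := (hremv _ _ _).1 hy
      obtain ⟨hz1, -⟩ := (hremv _ _ _).1 hz
      exact phine ra hra y hy1 hy2 (hcom _ (E.adj ra hra y hy1) (E.adj rb hrb y hz1))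
    · rw [if_neg e3]
      dsimp only
      obtain ⟨f1, f2, f3, f4, f5⟩ := key r hr e1 e2 e3
      rw [econ_repl]
      refine (List.nodup_map_iff_inj_on (E.nd r hr)).2 ?_
      intro x hx y hy hxy
      by_cases hxb : x = rb.id
      · by_cases hyb : y = rb.id
        · rw [hxb, hyb]
        · rw [if_pos hxb, if_neg hyb] at hxy
          exact absurd ⟨by rw [hxy]; exact hy, by rw [← hxb]; exact hx⟩ f5
      · by_cases hyb : y = rb.id
        · rw [if_neg hxb, if_pos hyb] at hxy
          exact absurd ⟨by rw [← hxy]; exact hx, by rw [← hyb]; exact hy⟩ f5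
        · rw [if_neg hxb, if_neg hyb] at hxy
          exact hxy
  · -- adj
    intro r' hr'
    obtain ⟨r, hr, e1, e2, rfl⟩ := (econ_mem rv ra rb K r').1 hr'
    rw [econ_id]
    unfold econ_mod
    by_cases e3 : r.id = ra.id
    · rw [if_pos e3, e3, hHa]
      dsimp only
      intro y hy
      rcases List.mem_append.1 hy with hy | hy
      · obtain ⟨hy1, hy2⟩ := (hremv _ _ _).1 hy
        exact mem_erase.2 ⟨phine ra hra y hy1 hy2, mem_union_left _ (E.adj ra hra y hy1)⟩
      · obtain ⟨hy1, hy2⟩ := (hremv _ _ _).1 hy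
        exact mem_erase.2 ⟨phine rb hrb y hy1 hy2, mem_union_right _ (E.adj rb hrb y hy1)⟩
    · rw [if_neg e3]
      dsimp only
      obtain ⟨f1, f2, f3, f4, f5⟩ := key r hr e1 e2 e3
      rw [econ_repl, hHx _ f1 f2 f3]
      intro y hy
      obtain ⟨z, hz, rfl⟩ := List.mem_map.1 hy
      by_cases hzb : z = rb.id
      · rw [if_pos hzb]
        rw [if_pos (by rw [← hzb]; exact E.adj r hr z hz)]
        exact mem_insert_self _ _
      · rw [if_neg hzb]
        split_ifs with h
        · exact mem_insert_of_mem (mem_erase.2 ⟨phineb r hr z hz hzb, E.adj r hr z hz⟩)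
        · exact E.adj r hr z hz
  · -- cl
    intro r' hr'
    obtain ⟨r, hr, e1, e2, rfl⟩ := (econ_mem rv ra rb K r').1 hr'
    have hrec : ∀ q ∈ K, q.id ≠ rv.id → q.id ≠ rb.id →
        ∃ q' ∈ contrC rv ra rb K, q'.id = q.id := by
      intro q hq g1 g2
      exact ⟨econ_mod rv ra rb q, (econ_mem rv ra rb K _).2 ⟨q, hq, g1, g2, rfl⟩, econ_id _ _ _ _⟩
    unfold econ_mod
    by_cases e3 : r.id = ra.id
    · rw [if_pos e3]
      dsimp only
      intro y hy
      rcases List.mem_append.1 hy with hy | hy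
      · obtain ⟨hy1, hy2⟩ := (hremv _ _ _).1 hy
        obtain ⟨q, hq, rfl⟩ := E.cl ra hra y hy1
        refine hrec q hq hy2 ?_
        intro h
        have := G.bip _ _ (E.adj ra hra _ hy1)
        rw [h] at this
        exact this hsab
      · obtain ⟨hy1, hy2⟩ := (hremv _ _ _).1 hy
        obtain ⟨q, hq, rfl⟩ := E.cl rb hrb y hy1
        refine hrec q hq hy2 ?_
        intro h
        have := G.bip _ _ (E.adj rb hrb _ hy1)
        rw [h] at this
        exact this rfl
    · rw [if_neg e3]
      dsimp only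
      obtain ⟨f1, f2, f3, f4, f5⟩ := key r hr e1 e2 e3
      rw [econ_repl]
      intro y hy
      obtain ⟨z, hz, rfl⟩ := List.mem_map.1 hy
      by_cases hzb : z = rb.id
      · rw [if_pos hzb]
        exact hrec ra hra ida.symm idab
      · rw [if_neg hzb]
        obtain ⟨q, hq, rfl⟩ := E.cl r hr z hz
        exact hrec q hq (f4 _ hz) hzb
  · -- inj
    intro r' hr' q' hq' h
    obtain ⟨r, hr, e1, e2, rfl⟩ := (econ_mem rv ra rb K r').1 hr'
    obtain ⟨q, hq, g1, g2, rfl⟩ := (econ_mem rv ra rb K q').1 hq'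
    rw [econ_id, econ_id] at h
    rw [econ_id, econ_id]
    exact E.inj r hr q hq h

end Pool.Agent.Helper76.PC
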